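import Pool.Agent.Y283.NK.Main

/-!
# Trace class perturbations of normal operators, for almost every coupling constant

Let `N` be a normal operator on a separable complex Hilbert space and `K` a trace class operator.
No condition is put on `N` (its spectrum may have interior, its spectral measure may be anything)
and none on `K`. For every `t` outside a set which is null for all atomless measures with bounded
logarithmic potential, in particular for almost every complex `t` and for almost every real `t`, the
operator `N + t K` is a multiple of the identity or has a nontrivial closed hyperinvariant subspace. Moreover for these `t` every point `c` of the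
spectrum carries, for every `ε > 0`, a nonzero vector `x` with `‖(T - c)^n x‖ ≤ C ε ^ n` for all `n`
(its local spectrum is in the disc of radius `ε` about `c`), and the same holds for the adjoint.

Whether `N + K` has a nontrivial invariant subspace is open even for diagonal `N` and `K` of rank one
(Pearcy's question, see MP_7ec3b1_an). What is known are conditions on `N` (spectrum on a curve) or on
the coefficients of `K` (Foias, Jung, Ko, Pearcy; Fang, Xia; Klaja; Putinar, Yakubovich;
Gallardo-Gutierrez, Gonzalez-Dona).

Proof. `N` is the multiplication by `φ` on `L²(μ)` and `K f = ∑ ⟪v j, f⟫ u j` with square summable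
norms. The formal local resolvent of `x` at `z` is `(x + t ∑ c j (z) u j) / (z - φ)`, where
`c = (1 - t F(z))⁻¹ b(z)` with the Cauchy transforms `F i j`, `b i` of `conj (v i) u j μ` and
`conj (v i) x μ`. For almost every `z` these exist, `F(z)` is a trace class matrix, and by Weyl's
inequality `log⁻ |det (1 - t F(z))|` is integrable in `(z, t)` for area measure in `z` and every
measure with bounded logarithmic potential in `t`. The vectors themselves are in general not in
`L²(μ)` for any `z` in the interior of the spectrum. But their integrals over a circle of radius `r`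
against bounded functions are, for almost every `r`, since `∫ ℓ_r(w)² dr` is bounded in `w` for the
circle integral `ℓ_r(w)` of `1 / |z - w|`. So one can multiply by an outer function `h` with `|h c| ≤ 1`
and integrate: this gives vectors `X a = ∮ (z - p)^a h f` with `(T - p) X a = X (a + 1)` and
`‖X a‖ ≤ C r^a`. They vanish only if the initial vector `x` is in the range of `T - p`. (For `K` of
infinite rank one takes weak limits of the vectors belonging to the finite sections.) If the spectrum
has two points, such vectors for `T` and `T†` at different points annihilate each other across the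
commutant. If it has only one point `p`, then `T - p` is compact (library), and Lomonosov's theorem
applies.

The parts of the formal proof were written by helpers 978 (Weyl's inequality), 907 (inverses), 891
(potentials), 779 (circle integrals), 681 (outer functions), 454 (weak limits), 487 (choice of
coupling and radius), 25 (spectral theorem), 180 (integrated local resolvents), 604 (inner products,
measurability), 708 (good radii), 529 (annihilation), 77 (adjoints) and 283 (assembly). The outer
functions are adapted from the starting library `Pool.Agent.W610.HY` (two-circles theorem), the one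
point case uses `Pool.Agent.W806.HI.G2` and `Pool.Agent.W577.HI.G1`.
-/

set_option autoImplicit false

open MeasureTheory Metric
open scoped InnerProductSpace ENNReal NNReal

namespace Pool.Agent.Results.MP_f981b0_an.NormalPlusTraceClass

section Defs

variable {H : Type} [NormedAddCommGroup H] [InnerProductSpace ℂ H]

/-- `T` is a multiple of the identity. -/
def IsScalar (T : H →L[ℂ] H) : Prop := ∃ c : ℂ, T = c • (1 : H →L[ℂ] H)

/-- `T` has a closed subspace, neither `{0}` nor the whole space, which is invariant under every
bounded operator commuting with `T`. -/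
def HasHyperinvariant (T : H →L[ℂ] H) : Prop :=
  ∃ V : Submodule ℂ H, IsClosed (V : Set H) ∧ V ≠ ⊥ ∧ V ≠ ⊤ ∧
    ∀ Q : H →L[ℂ] H, Q * T = T * Q → ∀ x ∈ V, Q x ∈ V

/-- For every point `c` of the spectrum and every `ε > 0` there is a nonzero vector `x` with
`‖(T - c)^n x‖ ≤ C ε ^ n` for all `n`. -/
def SmallLocalSpectra (T : H →L[ℂ] H) : Prop :=
  ∀ c ∈ spectrum ℂ T, ∀ ε : ℝ, 0 < ε → ∃ (x : H) (C : ℝ), x ≠ 0 ∧
    ∀ n : ℕ, ‖((T - c • (1 : H →L[ℂ] H)) ^ n) x‖ ≤ C * ε ^ n

/-- The conclusion of the theorem for one operator. -/
def Good [CompleteSpace H] (T : H →L[ℂ] H) : Prop :=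
  (IsScalar T ∨ HasHyperinvariant T) ∧ SmallLocalSpectra T ∧
    SmallLocalSpectra (ContinuousLinearMap.adjoint T)

/-- `K` is of trace class: `K f = ∑ ⟪v j, f⟫ u j` with `∑ ‖u j‖² < ∞` and `∑ ‖v j‖² < ∞`. -/
def TraceClass (K : H →L[ℂ] H) : Prop :=
  ∃ u v : ℕ → H, Summable (fun j => ‖u j‖ ^ 2) ∧ Summable (fun j => ‖v j‖ ^ 2) ∧
    ∀ f, HasSum (fun j => ⟪v j, f⟫_ℂ • u j) (K f)

end Defs

/-- The measure `m` has no atoms, and on every disc `|t| < R` it is finite and
`∫ log⁺ (1 / |t - s|) dm(t)` is bounded in `s ∈ ℂ`. -/
def BoundedPotential (m : Measure ℂ) : Prop :=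
  (∀ s : ℂ, m {s} = 0) ∧
  ∀ R : ℝ, m (ball (0:ℂ) R) ≠ ⊤ ∧ ∃ C : ℝ≥0, ∀ s : ℂ,
    ∫⁻ t in ball (0:ℂ) R, ENNReal.ofReal (Real.posLog ‖t - s‖⁻¹) ∂m ≤ C

/-- **Generic trace class perturbations of normal operators have hyperinvariant subspaces.** Let `N`
be normal and `K` of trace class on a separable Hilbert space. Then `N + t K` is good (a multiple of
the identity or with a nontrivial hyperinvariant subspace, and with small local spectra, as its
adjoint) for almost every `t` with respect to every atomless measure with bounded logarithmic
potential, in particular for almost every complex and for almost every real `t`. -/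
theorem result (H : Type) [NormedAddCommGroup H] [InnerProductSpace ℂ H] [CompleteSpace H]
    [TopologicalSpace.SeparableSpace H] (N K : H →L[ℂ] H) (hN : IsStarNormal N)
    (hK : TraceClass K) :
    (∀ (m : Measure ℂ) [SFinite m], BoundedPotential m →
      ∀ᵐ t ∂m, Good (N + t • K)) ∧
    (∀ᵐ t : ℂ, Good (N + t • K)) ∧
    (∀ᵐ t : ℝ, Good (N + (t : ℂ) • K)) := by
  obtain ⟨u, v, hu, hv, hs⟩ := hK
  have hR : Pool.Agent.Y283.NK.Repr K u v := ⟨hu, hv, hs⟩
  have main : ∀ (m : Measure ℂ) [SFinite m], Pool.Agent.Y283.NK.LogBd m →
      ∀ᵐ t ∂m, Good (N + t • K) := by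
    intro m _ hm
    filter_upwards [Pool.Agent.Y283.NK.main0 H N K hN u v hR m hm] with t ht
    exact ht
  refine ⟨?_, ?_, ?_⟩
  · intro m _ hm
    refine main m fun R => ?_
    obtain ⟨h0, hm⟩ := hm
    obtain ⟨h1, C, hC⟩ := hm R
    refine ⟨C + (m (ball (0:ℂ) R)).toNNReal, ?_, fun s => ?_⟩
    · rw [ENNReal.coe_add, ENNReal.coe_toNNReal h1]
      exact le_add_self
    · calc ∫⁻ t in ball (0:ℂ) R, Pool.Agent.Y283.NK.lm ‖t - s‖ ∂m
          = ∫⁻ t in ball (0:ℂ) R, ENNReal.ofReal (Real.posLog ‖t - s‖⁻¹) ∂m := by
            refine lintegral_congr_ae (ae_restrict_of_ae ?_)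
            have h2 : ∀ᵐ t ∂m, t ≠ s := by
              rw [ae_iff]
              simpa using h0 s
            filter_upwards [h2] with t ht
            unfold Pool.Agent.Y283.NK.lm
            rw [if_neg (by simpa [sub_eq_zero] using ht)]
        _ ≤ C := hC s
        _ ≤ _ := by rw [ENNReal.coe_add]; exact le_self_add
  · exact main volume Pool.Agent.Y891.NK.main_vol.1
  · have h := main (Measure.map (fun t : ℝ => (t : ℂ)) volume) Pool.Agent.Y891.NK.main_vol.2
    exact ae_of_ae_map Complex.continuous_ofReal.measurable.aemeasurable h

end Pool.Agent.Results.MP_f981b0_an.NormalPlusTraceClass
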