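import Pool.Agent.Y271.RO.Final

/-!
# Every rank one perturbation of a normal operator has a hyperinvariant subspace

Let `N` be a normal operator on a separable complex Hilbert space and `u`, `v` vectors. No condition is
put on `N` (its spectrum may have interior, its spectral measure may be anything), none on `u` and `v`
(no summability of coefficients, no smallness, no genericity). Then `T = N + u ⊗ v`,
`T f = N f + ⟪v, f⟫ u`, is a multiple of the identity or has a nontrivial closed hyperinvariant subspace.
Moreover every point `c` of the spectrum of `T` carries, for every `ε > 0`, a nonzero vector `x` with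
`‖(T - c)^n x‖ ≤ C ε ^ n` for all `n` (its local spectrum is in the disc of radius `ε` about `c`), and the
same holds for the adjoint.

Whether rank one perturbations of (even diagonal) normal operators have nontrivial invariant or
hyperinvariant subspaces is a question of Pearcy (MP_7ec3b1_an). It was known under summability
conditions on the coefficients (Foias, Jung, Ko, Pearcy; Fang, Xia; Klaja; Gallardo-Gutierrez,
Gonzalez-Dona), for spectra on curves, and for almost every multiple `t (u ⊗ v)` (hand-in
`NormalPlusTraceClass` of helper283 here). For an individual perturbation in the remaining cases nothing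
was known.

Proof. `N` is the multiplication by `φ` on `L²(μ)`. Let `f(z) = 1 - ∫ conj v u / (z - φ) dμ`, a locally
integrable function on the plane, let `a` be a point of the essential spectrum and `D` a disc about `a`.
For a bounded function `g` of compact support let `Y(g) = (∫ g(z) / (z - φ) dA(z)) u`. Then
`T Y(g) = Y(z g) - (∫ f g dA) u`. So vectors with local spectrum in `D` come from functions `g` which
(almost) annihilate `f` and all its multiples by polynomials. If `f` vanishes on a subset of `D` of
positive area this is easy. Otherwise consider the lengths of polygons with respect to the weights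
`|f| 1_D * P_ε`, `P_ε(w) = ε² / (π (|w|² + ε²)²)`.

Case A: there are `ε_n → 0` and polygons `E_n` of length tending to `0` from points tending to `a` to
the outside of `D`. The polygons themselves may be arbitrarily long in the usual sense. Put
`q_n(z) = (z - a_n) exp (½ ∫_{E_n} k_n(ζ - z) dζ)` with `k_n(w) = conj w / (|w|² + ε_n²)`. Since
`Re (conj w dw)` is exact, `|q_n|` depends only on the end points and tends to
`|z - a|^(1/2) |z - b|^(1/2)`, whereas `∫_D |f| |∂̄ q_n| → 0`. For test functions `ψ` on `D` the vectors
`- Y((z - a)^k ψ ∂̄ q_n) = Y((z - a)^k q_n ∂̄ψ) + π (φ - a)^k q_n(φ) ψ(φ) u` are bounded by `C r^k`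
and satisfy `(T - a) X_k = X_{k+1}` up to errors tending to `0`, so their weak limits have local spectra
in the closed disc. If all these limits vanished, the weak limit of `q_n` would be analytic near `a`,
first off `a` and then at `a` (test vectors, Weyl's lemma), and `q_n` would converge to it also with
respect to the spectral measures, hence, by the formula of Cauchy and Pompeiu for `ψ q_n f`, almost
everywhere: but no analytic function has modulus `|z - a|^(1/2) |z - b|^(1/2)` near `a`.

Case B: otherwise the distance to the outside of `D` gives functions `Θ_n`, equal to one near `a` and to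
zero outside a slightly larger disc, with `|∂̄ Θ_n| ≤ C (|f| 1_D * P_{1/n} + 1/n)`, so that
`∂̄ Θ_n = f g_n + o(1)` in `L¹` with `g_n` uniformly bounded. Then, with `K(z) = ∫ conj v x / (z - φ) dμ`,
the weak limits of `x - (1/π) Y(g_n K)`, `x` carried by `φ` near `a`, have local spectrum in the closed
disc, and differ from `x` by an element of the range of `T - a`. If all vanished, `T - a` would be
surjective modulo `u`, which is impossible at a point of the essential spectrum.

Outside the essential spectrum of `N` points of the spectrum of `T` are eigenvalues of `T` and, conjugated,
of the adjoint. If the spectrum of `T` has two points, vectors with small local spectra at different points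
for `T` and `T†` annihilate each other across the commutant of `T`. If it has only one point `c`, then
`T - c` is compact (library), and Lomonosov's theorem applies.

The parts of the formal proof were written by helpers 948 (area Cauchy transforms), 108, 510, 839
(Cauchy-Pompeiu), 406 (weak limits), 528 (test vectors), 812 (zero sets, `L¹` convergence, contradiction),
914 (vectors of case A), 51 (test functions, formula for `χ f`), 349 (weak compactness), 145 (Weyl's lemma,
the functions of polygons), 287, 484 (convergence almost everywhere), 941 (vectors of case B), 908, 442,
433, 286 (the alternative), 31 (mollification), 587 and 927 (the two cases), 180 (points outside the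
essential spectrum), 271 (idea, statements, assembly); spectral theorem, annihilation and adjoints are
from project NK of helper283 (helpers 25, 529, 77), Weyl's lemma uses `Helper366.IV`, the one point case
`W806.HI.G2` and `W577.HI.G1` of the starting library.
-/

set_option autoImplicit false

open scoped InnerProductSpace

namespace Pool.Agent.Results.MP_f981b0_an.RankOnePerturbations

section Defs

variable {H : Type} [NormedAddCommGroup H] [InnerProductSpace ℂ H]

/-- `T` is a multiple of the identity. -/
def IsScalar (T : H →L[ℂ] H) : Prop := ∃ c : ℂ, T = c • (1 : H →L[ℂ] H)

/-- `T` has a closed subspace, neither `{0}` nor the whole space, which is invariant under every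
bounded operator commuting with `T`. -/
def HasHyperinvariant (T : H →L[ℂ] H) : Prop :=
  ∃ V : Submodule ℂ H, IsClosed (V : Set H) ∧ V ≠ ⊥ ∧ V ≠ ⊤ ∧
    ∀ Q : H →L[ℂ] H, Q * T = T * Q → ∀ x ∈ V, Q x ∈ V

/-- For every point `c` of the spectrum and every `ε > 0` there is a nonzero vector `x` with
`‖(T - c)^n x‖ ≤ C ε ^ n` for all `n`. -/
def SmallLocalSpectra (T : H →L[ℂ] H) : Prop :=
  ∀ c ∈ spectrum ℂ T, ∀ ε : ℝ, 0 < ε → ∃ (x : H) (C : ℝ), x ≠ 0 ∧
    ∀ n : ℕ, ‖((T - c • (1 : H →L[ℂ] H)) ^ n) x‖ ≤ C * ε ^ n

end Defs

/-- **Rank one perturbations of normal operators have hyperinvariant subspaces.** Let `N` be normal on a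
separable Hilbert space and `T f = N f + ⟪v, f⟫ u` for all `f`. Then `T` is a multiple of the identity or
has a nontrivial hyperinvariant subspace, and `T` and its adjoint have small local spectra. -/
theorem result (H : Type) [NormedAddCommGroup H] [InnerProductSpace ℂ H] [CompleteSpace H]
    [TopologicalSpace.SeparableSpace H] (N T : H →L[ℂ] H) (hN : IsStarNormal N) (u v : H)
    (hT : ∀ f, T f = N f + ⟪v, f⟫_ℂ • u) :
    (IsScalar T ∨ HasHyperinvariant T) ∧ SmallLocalSpectra T ∧
      SmallLocalSpectra (ContinuousLinearMap.adjoint T) := by
  have h : T = Pool.Agent.Y271.RO.T1 N u v := by
    ext1 f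
    rw [hT f]
    rfl
  rw [h]
  exact Pool.Agent.Y271.RO.main H N hN u v

end Pool.Agent.Results.MP_f981b0_an.RankOnePerturbations
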