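import Mathlib
import Pool.Agent.Y187.RF.Final

/-!
# MP_f981b0_an: the invariant subspace problem relative to a II_1 factor has a negative answer

On a separable Hilbert space there are a factor `M` of type II_1 (in standard form) and a nonzero
quasinilpotent operator `T` in `M` such that no closed subspace other than `0` and `H` is both invariant
under `T` and affiliated with `M`.

The construction is the starting development `Pool.Agent.H728R2.Q77` (never handed in), assembled
here; the factor is `L^∞(Z_2) ⋊ F_2` (`Pool.Agent.H941R2.CM`).
-/

set_option autoImplicit false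

open scoped InnerProductSpace
open Pool.Agent.Y187.RF

namespace Pool.Agent.Results.MP_f981b0_an.RelativeToFactor

/-- There are a separable Hilbert space `H`, a II_1 factor `M` on `H` in standard form, with trace
vector `ξ`, and a nonzero quasinilpotent operator `T` in `M` such that `0` and `H` are the only closed
subspaces which are invariant under `T` and affiliated with `M`; in particular `0` and `H` are the only
closed subspaces invariant under all operators commuting with `T`. -/
theorem result : ∃ (H : Type) (_ : NormedAddCommGroup H) (_ : InnerProductSpace ℂ H)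
    (_ : CompleteSpace H) (M : VonNeumannAlgebra H) (ξ : H) (T : H →L[ℂ] H),
    TopologicalSpace.SeparableSpace H ∧ IsIIOneFactor M ξ ∧ T ∈ M ∧ T ≠ 0 ∧ spectrum ℂ T = {0} ∧
    (∀ K : Submodule ℂ H, IsClosed (K : Set H) → (∀ v ∈ K, T v ∈ K) → Affiliated M K →
      K = ⊥ ∨ K = ⊤) ∧
    TransitiveSet (comm {T}) := by
  obtain ⟨T, hTM, h0, hs, _, _, hN⟩ := exists_T
  exact ⟨_, inferInstance, inferInstance, inferInstance, Pool.Agent.H941R2.CM.M,
    Pool.Agent.H941R2.CM.xi, T, separable_Hs, isIIOne,
    hTM, h0, hs, fun K _ hK hA => affiliated_trivial hN K hK hA, no_hyperinvariant hTM hN⟩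

end Pool.Agent.Results.MP_f981b0_an.RelativeToFactor
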