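import Pool.Agent.Y280.GFin

/-!
# MP_f981b0_an: typical contractions of `ℓ_p`
-/

set_option autoImplicit false
open Finset TopologicalSpace Pool.Agent.Y280
open scoped ENNReal ComplexOrder

namespace Pool.Agent.Results.MP_f981b0_an.TypicalContractions

variable {E : Type} [NormedAddCommGroup E] [NormedSpace ℂ E]

/-- All contractions: the closed unit ball of the bounded operators. -/
def Contr (E : Type) [NormedAddCommGroup E] [NormedSpace ℂ E] : Set (E →L[ℂ] E) :=
  {T | ‖T‖ ≤ 1}

/-- **Typical contractions of `ℓ_p`, `1 < p < ∞`, have nontrivial closed invariant subspaces**,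
in the strong and in the strong* operator topology. The spaces of contractions are completely
metrizable. -/
theorem result (p : ℝ) (hp : 1 < p) (c : E →ₗ[ℂ] (ℕ → ℂ)) (hc : IsEllp p c)
    (t : TopologicalSpace (Contr E)) (ht : t = SOT (Contr E) ∨ t = SOTStar (Contr E)) :
    (Contr E).Nonempty ∧ @IsCompletelyMetrizableSpace _ t ∧ @BaireSpace _ t ∧
      {T : Contr E | DenselyInvariant (T : E →L[ℂ] E)} ∈ @residual _ t :=
  result_ball p hp c hc _ rfl t ht

end Pool.Agent.Results.MP_f981b0_an.TypicalContractions
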